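import Mathlib

/-! One-variable lemmas for the comparison with circular segments. -/

set_option autoImplicit false

namespace Pool.Agent.Iso

open Set Real

/-- Area of the segment of the unit disc with half angle `θ`. -/
noncomputable def sg (θ : ℝ) : ℝ := θ - sin θ * cos θ

theorem sg_der (θ : ℝ) : HasDerivAt sg (2 * sin θ ^ 2) θ := by
  have h := (hasDerivAt_id θ).sub ((hasDerivAt_sin θ).mul (hasDerivAt_cos θ))
  exact h.congr_deriv (by nlinarith [sin_sq_add_cos_sq θ])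

theorem sg_cont : Continuous sg := by unfold sg; fun_prop

theorem mvt1 {a b : ℝ} (ha : 0 ≤ a) (hab : a < b) (hb : b ≤ π) : ∃ ξ, 0 < sin ξ ∧
    cos b < cos ξ ∧ cos ξ < cos a ∧ sg b - sg a = (cos a - cos b) * (2 * sin ξ) := by
  obtain ⟨ξ, hξ, e⟩ := exists_ratio_hasDerivAt_eq_ratio_slope cos (fun x => -sin x) hab
    continuous_cos.continuousOn (fun x _ => hasDerivAt_cos x) sg (fun x => 2 * sin x ^ 2)
    sg_cont.continuousOn (fun x _ => sg_der x)
  have s0 : 0 < sin ξ := sin_pos_of_pos_of_lt_pi (by linarith [hξ.1]) (by linarith [hξ.2])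
  refine ⟨ξ, s0, cos_lt_cos_of_nonneg_of_le_pi (by linarith [hξ.1]) hb hξ.2,
    cos_lt_cos_of_nonneg_of_le_pi ha (by linarith [hξ.2]) hξ.1, ?_⟩
  refine mul_right_cancel₀ s0.ne' ?_
  linear_combination -e

theorem sg_lt {a b : ℝ} (ha : 0 ≤ a) (hab : a < b) (hb : b ≤ π) : sg a < sg b := by
  obtain ⟨ξ, s0, c1, c2, e⟩ := mvt1 ha hab hb
  have : 0 < (cos a - cos b) * (2 * sin ξ) := mul_pos (by linarith) (by linarith)
  linarith

theorem mvt2 {a b : ℝ} (ha : 0 ≤ a) (hab : a < b) (hb : b ≤ π) :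
    2 / 3 * sin b ^ 3 - 2 / 3 * sin a ^ 3 ≤ cos a * (sg b - sg a) := by
  obtain ⟨ξ, hξ, e⟩ := exists_ratio_hasDerivAt_eq_ratio_slope (fun x => 2 / 3 * sin x ^ 3)
    (fun x => 2 * sin x ^ 2 * cos x) hab (by fun_prop) (fun x _ => by
      have h := ((hasDerivAt_sin x).pow 3).const_mul (2 / 3)
      exact h.congr_deriv (by push_cast; ring)) sg (fun x => 2 * sin x ^ 2) sg_cont.continuousOn (fun x _ => sg_der x)
  have s0 : 0 < sin ξ := sin_pos_of_pos_of_lt_pi (by linarith [hξ.1]) (by linarith [hξ.2])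
  have c2 := cos_lt_cos_of_nonneg_of_le_pi ha (by linarith [hξ.2]) hξ.1
  have e2 : 2 / 3 * sin b ^ 3 - 2 / 3 * sin a ^ 3 = cos ξ * (sg b - sg a) := by
    refine mul_right_cancel₀ (b := 2 * sin ξ ^ 2) (by positivity) ?_
    linear_combination -e
  rw [e2]
  exact mul_le_mul_of_nonneg_right c2.le (sub_pos.2 (sg_lt ha hab hb)).le

theorem cube_le {b : ℝ} (h0 : 0 ≤ b) (hb : b ≤ π) : 2 / 3 * sin b ^ 3 ≤ sg b := by
  rcases h0.eq_or_lt with rfl | h0
  · simp [sg]
  · simpa [sg] using mvt2 le_rfl h0 hb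

theorem sg_surj {x : ℝ} (h0 : 0 ≤ x) (h1 : x ≤ π) : ∃ θ, 0 ≤ θ ∧ θ ≤ π ∧ sg θ = x := by
  obtain ⟨θ, hθ, e⟩ := intermediate_value_Icc pi_pos.le sg_cont.continuousOn
    (show x ∈ Icc (sg 0) (sg π) by simpa [sg] using ⟨h0, h1⟩)
  exact ⟨θ, hθ.1, hθ.2, e⟩

/-- A function with asymptotically nonpositive increments does not increase. -/
theorem chain (Φ : ℝ → ℝ) {p q : ℝ} (hpq : p < q) (h : ∀ ε : ℝ, 0 < ε → ∃ η : ℝ, 0 < η ∧
    ∀ u v, p ≤ u → u < v → v ≤ q → v - u < η → Φ v ≤ Φ u + ε * (v - u)) : Φ q ≤ Φ p := by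
  have d0 : 0 < q - p := sub_pos.2 hpq
  refine le_of_forall_pos_le_add fun ε hε => ?_
  obtain ⟨η, η0, hη⟩ := h (ε / (q - p)) (div_pos hε d0)
  obtain ⟨N, hN⟩ := exists_nat_gt ((q - p) / η)
  have N0 : (0 : ℝ) < N := (div_pos d0 η0).trans hN
  have δ0 : 0 < (q - p) / N := div_pos d0 N0
  have δ1 : (q - p) / N < η := by
    rw [div_lt_iff₀ N0]
    rw [div_lt_iff₀ η0] at hN
    linarith
  have e : (N : ℝ) * ((q - p) / N) = q - p := by field_simp
  have k : ∀ n : ℕ, n ≤ N → Φ (p + n * ((q - p) / N)) ≤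
      Φ p + ε / (q - p) * (n * ((q - p) / N)) := by
    intro n
    induction n with
    | zero => simp
    | succ n ih =>
      intro hn
      have h1 := ih (Nat.le_of_succ_le hn)
      have h2 : ((n + 1 : ℕ) : ℝ) * ((q - p) / N) ≤ N * ((q - p) / N) :=
        mul_le_mul_of_nonneg_right (by exact_mod_cast hn) δ0.le
      have h3 : (0 : ℝ) ≤ n * ((q - p) / N) := by positivity
      have h4 : ((n + 1 : ℕ) : ℝ) * ((q - p) / N) = n * ((q - p) / N) + (q - p) / N := by
        push_cast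
        ring
      have h5 := hη (p + n * ((q - p) / N)) (p + ((n + 1 : ℕ) : ℝ) * ((q - p) / N))
        (by linarith) (by linarith) (by linarith) (by linarith)
      linarith
  have := k N le_rfl
  rw [e, add_sub_cancel, div_mul_cancel₀ _ d0.ne'] at this
  exact this

/-- The algebra of one step. -/
theorem step_alg {σ c τu τv wu wv μ δ α R ε dL : ℝ} (hσ : 0 < σ) (hR : 0 < R) (hδ : 0 ≤ δ)
    (h1 : τu ≤ c) (h2 : c ≤ τv) (hμ : 0 ≤ μ) (h3 : μ ≤ wu) (h4 : μ ≤ wv) (h5 : μ * δ ≤ α)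
    (h6 : α ≤ (μ + ε) * δ) (h7 : α = R ^ 2 * ((τv - τu) * (2 * σ)))
    (h8 : 2 * σ * δ - c * (wv - wu) ≤ dL) :
    2 / R * α + (wu * τu - wv * τv) - 2 / R * ε * δ ≤ dL := by
  have a1 : μ * (τv - τu) ≤ wv * (τv - c) + wu * (c - τu) := by
    nlinarith [mul_le_mul_of_nonneg_right h3 (sub_nonneg.2 h1),
      mul_le_mul_of_nonneg_right h4 (sub_nonneg.2 h2)]
  have a2 : τv - τu = α / (2 * σ * R ^ 2) := by
    rw [h7]
    field_simp
  have a3 : μ * (μ * δ / (2 * σ * R ^ 2)) ≤ μ * (τv - τu) := by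
    rw [a2]
    exact mul_le_mul_of_nonneg_left (div_le_div_of_nonneg_right h5 (by positivity)) hμ
  have a4 : 2 / R * (μ * δ) ≤ 2 * σ * δ + μ * (μ * δ / (2 * σ * R ^ 2)) := by
    have e : 2 * σ * δ + μ * (μ * δ / (2 * σ * R ^ 2)) - 2 / R * (μ * δ) =
        δ * (2 * σ * R - μ) ^ 2 / (2 * σ * R ^ 2) := by
      field_simp
      ring
    have : 0 ≤ δ * (2 * σ * R - μ) ^ 2 / (2 * σ * R ^ 2) := by positivity
    linarith
  have a5 := mul_le_mul_of_nonneg_left h6 (by positivity : 0 ≤ 2 / R)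
  linarith

/-- A convex function that is nonnegative after adding a positive part is nonnegative after
adding a multiple. -/
theorem minimax {E : Type} [AddCommGroup E] [Module ℝ E] {K : Set E} {Φ l : E → ℝ}
    (hΦ : ConvexOn ℝ K Φ)
    (hl : ∀ x y : E, ∀ a b : ℝ, a + b = 1 → l (a • x + b • y) = a * l x + b * l y)
    (h : ∀ x ∈ K, 0 ≤ Φ x + max (l x) 0) :
    ∃ θ : ℝ, 0 ≤ θ ∧ θ ≤ 1 ∧ ∀ x ∈ K, 0 ≤ Φ x + θ * l x := by
  set S : Set ℝ := insert 0 {t | ∃ x ∈ K, 0 < l x ∧ t = -Φ x / l x} with hS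
  have up1 : ∀ t ∈ S, t ≤ 1 := by
    rintro t (rfl | ⟨x, hx, l0, rfl⟩)
    · exact zero_le_one
    · have := h x hx
      rw [max_eq_left l0.le] at this
      rw [div_le_one l0]
      linarith
  have bd : BddAbove S := ⟨1, up1⟩
  have ne : S.Nonempty := ⟨0, mem_insert _ _⟩
  refine ⟨sSup S, le_csSup bd (mem_insert _ _), csSup_le ne up1, fun y hy => ?_⟩
  rcases lt_trichotomy (l y) 0 with k | k | k
  · have y0 : 0 ≤ Φ y := by simpa [max_eq_right k.le] using h y hy
    have : sSup S ≤ Φ y / -l y := by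
      refine csSup_le ne ?_
      rintro t (rfl | ⟨x, hx, l0, rfl⟩)
      · exact div_nonneg y0 (by linarith)
      · have d0 : 0 < l x - l y := by linarith
        have a0 : 0 ≤ -l y / (l x - l y) := div_nonneg (by linarith) d0.le
        have b0 : 0 ≤ l x / (l x - l y) := div_nonneg l0.le d0.le
        have ab : -l y / (l x - l y) + l x / (l x - l y) = 1 := by field_simp; ring
        have c1 := hΦ.2 hx hy a0 b0 ab
        have c2 := h _ (hΦ.1 hx hy a0 b0 ab)
        have c3 : l ((-l y / (l x - l y)) • x + (l x / (l x - l y)) • y) = 0 := by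
          rw [hl _ _ _ _ ab]
          field_simp
          ring
        rw [c3, max_self, add_zero] at c2
        have c4 : 0 ≤ (-l y * Φ x + l x * Φ y) / (l x - l y) := by
          refine (c2.trans c1).trans (le_of_eq ?_)
          simp only [smul_eq_mul]
          ring
        have c5 : 0 ≤ -l y * Φ x + l x * Φ y := by
          by_contra n
          exact absurd c4 (not_le.2 (div_neg_of_neg_of_pos (not_le.1 n) d0))
        rw [div_le_div_iff₀ l0 (by linarith)]
        linarith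
    rw [le_div_iff₀ (by linarith)] at this
    linarith
  · simpa [k] using h y hy
  · have : -Φ y / l y ≤ sSup S := le_csSup bd (mem_insert_of_mem _ ⟨y, hy, k, rfl⟩)
    rw [div_le_iff₀ k] at this
    linarith

end Pool.Agent.Iso
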