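import Pool.Agent.MP_a32717_an.PasAvg

/-! Length and area of horizontal strips of a planar convex domain. -/

set_option autoImplicit false

namespace Pool.Agent.Pas

open MeasureTheory Set

variable {Ω : Set (ℝ × ℝ)} {ρ : Measure (ℝ × ℝ)}

/-- Area above a height. -/
noncomputable def Ar (Ω : Set (ℝ × ℝ)) (u : ℝ) : ℝ := volume.real (Ω ∩ {p | u < p.2})

/-- Boundary length above a height. -/
noncomputable def Ln (ρ : Measure (ℝ × ℝ)) (Ω : Set (ℝ × ℝ)) (u : ℝ) : ℝ :=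
  ρ.real (frontier Ω ∩ {p | u < p.2})

/-- Width at a height. -/
noncomputable def wd (Ω : Set (ℝ × ℝ)) (u : ℝ) : ℝ := hi Ω u - lo Ω u

theorem mab (u : ℝ) : MeasurableSet {p : ℝ × ℝ | u < p.2} :=
  measurableSet_lt measurable_const measurable_snd

theorem Dom.hi_fr (h : Dom Ω) {t : ℝ} (ht : t ∈ hts Ω) : (hi Ω t, t) ∈ frontier Ω :=
  h.mem_frontier.2 ⟨h.hi_cl ht, fun k => (h.lt_of_mem k).2.false⟩

theorem Dom.icc (h : Dom Ω) {u v : ℝ} (hu : u ∈ hts Ω) (hv : v ∈ hts Ω) : Icc u v ⊆ hts Ω :=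
  h.hts_cv.ordConnected.out hu hv

theorem IsLen.chord (hρ : IsLen ρ) {a : ℝ → ℝ} {u v c σ : ℝ} (huv : u ≤ v)
    (ha : ContinuousOn a (Icc u v)) (h1 : c ^ 2 + σ ^ 2 ≤ 1) :
    ENNReal.ofReal (c * (a v - a u) + σ * (v - u)) ≤ ρ ((fun t => (a t, t)) '' Ioc u v) := by
  refine le_trans ?_ (hρ.low _ c σ h1)
  have k := intermediate_value_Ioc (f := fun t => c * a t + σ * t) huv
    ((continuousOn_const.mul ha).add (continuousOn_const.mul continuousOn_id))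
  rw [image_image]
  refine le_trans (le_of_eq ?_) (measure_mono k)
  rw [Real.volume_Ioc]
  congr 1
  ring

theorem Dom.strip_len (h : Dom Ω) (hρ : IsLen ρ) {u v c σ : ℝ} (hu : u ∈ hts Ω) (hv : v ∈ hts Ω)
    (huv : u ≤ v) (h1 : c ^ 2 + σ ^ 2 ≤ 1) :
    2 * σ * (v - u) - c * (wd Ω v - wd Ω u) ≤ Ln ρ Ω u - Ln ρ Ω v := by
  have hJ := h.icc hu hv
  have cl := (h.lo_cv.continuousOn h.hts_op).mono hJ
  have ch := (h.hi_cc.continuousOn h.hts_op).mono hJ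
  have fin : ρ (frontier Ω ∩ {p | u < p.2}) ≠ ⊤ :=
    ne_top_of_le_ne_top (h.len_fin hρ) (measure_mono inter_subset_left)
  have e1 := measureReal_inter_add_sdiff (μ := ρ) (s := frontier Ω ∩ {p | u < p.2}) (mab v) fin
  have e2 : frontier Ω ∩ {p | u < p.2} ∩ {p | v < p.2} = frontier Ω ∩ {p | v < p.2} := by
    ext p
    exact ⟨fun k => ⟨k.1.1, k.2⟩, fun k => ⟨⟨k.1, huv.trans_lt k.2⟩, k.2⟩⟩
  rw [e2] at e1
  have mT : MeasurableSet ((fun t => (hi Ω t, t)) '' Icc u v) :=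
    (isCompact_Icc.image_of_continuousOn (ch.prodMk continuousOn_id)).measurableSet
  have k1 := hρ.chord (c := -c) (σ := σ) huv ch (by linarith)
  have k2 := hρ.chord huv cl h1
  have k3 := measure_inter_add_diff (μ := ρ) ((frontier Ω ∩ {p | u < p.2}) \ {p | v < p.2}) mT
  have k4 : ENNReal.ofReal (2 * σ * (v - u) - c * (wd Ω v - wd Ω u)) ≤
      ρ ((frontier Ω ∩ {p | u < p.2}) \ {p | v < p.2}) := by
    rw [← k3]
    refine le_trans (le_of_eq (congrArg _ (by simp only [wd]; ring))) (ENNReal.ofReal_add_le.trans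
      (add_le_add (k1.trans (measure_mono ?_)) (k2.trans (measure_mono ?_))))
    · rintro _ ⟨t, ht, rfl⟩
      exact ⟨⟨⟨h.hi_fr (hJ ⟨ht.1.le, ht.2⟩), ht.1⟩, ht.2.not_gt⟩, t, ⟨ht.1.le, ht.2⟩, rfl⟩
    · rintro _ ⟨t, ht, rfl⟩
      refine ⟨⟨⟨h.lo_fr (hJ ⟨ht.1.le, ht.2⟩), ht.1⟩, ht.2.not_gt⟩, ?_⟩
      rintro ⟨t', -, e⟩
      obtain ⟨e3, rfl⟩ := Prod.mk.inj e
      exact (h.lo_lt_hi (hJ ⟨ht.1.le, ht.2⟩)).ne' e3
  have k5 := (ENNReal.ofReal_le_iff_le_toReal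
    (ne_top_of_le_ne_top fin (measure_mono sdiff_subset))).1 k4
  simp only [Ln]
  simp only [Measure.real] at e1 ⊢
  linarith

theorem vol_box (a b u v : ℝ) (huv : u ≤ v) :
    volume.real (Ioo a b ×ˢ Ioc u v : Set (ℝ × ℝ)) = max (b - a) 0 * (v - u) := by
  rw [Measure.real, Measure.volume_eq_prod, Measure.prod_prod, Real.volume_Ioo, Real.volume_Ioc,
    ENNReal.toReal_mul, ENNReal.toReal_ofReal', ENNReal.toReal_ofReal (sub_nonneg.2 huv)]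

theorem box_fin (a b u v : ℝ) : volume (Ioo a b ×ˢ Ioc u v : Set (ℝ × ℝ)) ≠ ⊤ :=
  ((Metric.isBounded_Ioo a b).prod (Metric.isBounded_Ioc u v)).measure_lt_top.ne

theorem Dom.ar_sub (h : Dom Ω) {u v : ℝ} (huv : u ≤ v) :
    Ar Ω u - Ar Ω v = volume.real ((Ω ∩ {p | u < p.2}) \ {p | v < p.2}) := by
  have fin : volume (Ω ∩ {p | u < p.2}) ≠ ⊤ :=
    ne_top_of_le_ne_top h.vol_fin (measure_mono inter_subset_left)
  have e1 := measureReal_inter_add_sdiff (μ := volume) (s := Ω ∩ {p | u < p.2}) (mab v) fin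
  have e2 : Ω ∩ {p | u < p.2} ∩ {p | v < p.2} = Ω ∩ {p | v < p.2} := by
    ext p
    exact ⟨fun k => ⟨k.1.1, k.2⟩, fun k => ⟨⟨k.1, huv.trans_lt k.2⟩, k.2⟩⟩
  rw [e2] at e1
  simp only [Ar]
  linarith

theorem Dom.strip_area (h : Dom Ω) {u v ε : ℝ} (hu : u ∈ hts Ω) (hv : v ∈ hts Ω) (huv : u ≤ v)
    (hε : ∀ t ∈ Icc u v, |lo Ω t - lo Ω u| ≤ ε ∧ |hi Ω t - hi Ω u| ≤ ε) :
    max (wd Ω u - 2 * ε) 0 * (v - u) ≤ Ar Ω u - Ar Ω v ∧
      Ar Ω u - Ar Ω v ≤ max (wd Ω u + 2 * ε) 0 * (v - u) := by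
  have hJ := h.icc hu hv
  rw [h.ar_sub huv]
  constructor
  · rw [show wd Ω u - 2 * ε = (hi Ω u - ε) - (lo Ω u + ε) by simp only [wd]; ring,
      ← vol_box _ _ _ _ huv]
    refine measureReal_mono (fun p hp => ⟨⟨?_, hp.2.1⟩, hp.2.2.not_gt⟩)
      (ne_top_of_le_ne_top h.vol_fin (measure_mono fun p hp => hp.1.1))
    have k := hε p.2 ⟨hp.2.1.le, hp.2.2⟩
    exact h.mem_of_lt (x := p.1) (t := p.2) (hJ ⟨hp.2.1.le, hp.2.2⟩)
      (by linarith [(abs_le.1 k.1).2, hp.1.1]) (by linarith [(abs_le.1 k.2).1, hp.1.2])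
  · rw [show wd Ω u + 2 * ε = (hi Ω u + ε) - (lo Ω u - ε) by simp only [wd]; ring,
      ← vol_box _ _ _ _ huv]
    refine measureReal_mono (fun p hp => ?_) (box_fin _ _ _ _)
    have m : p.2 ∈ Ioc u v := ⟨hp.1.2, not_lt.1 hp.2⟩
    have k := hε p.2 ⟨m.1.le, m.2⟩
    have b := h.lt_of_mem (x := p.1) (t := p.2) hp.1.1
    exact ⟨⟨by linarith [(abs_le.1 k.1).1, b.1], by linarith [(abs_le.1 k.2).2, b.2]⟩, m⟩

theorem Dom.ar_lt (h : Dom Ω) {u v : ℝ} (hu : u ∈ hts Ω) (hv : v ∈ hts Ω) (huv : u < v) :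
    Ar Ω v < Ar Ω u := by
  rw [← sub_pos, h.ar_sub huv.le]
  obtain ⟨x, hx⟩ := h.icc hu hv (show (u + v) / 2 ∈ Icc u v from ⟨by linarith, by linarith⟩)
  have o : IsOpen (Ω ∩ Prod.snd ⁻¹' Ioo u v) := h.op.inter (isOpen_Ioo.preimage continuous_snd)
  have k := o.measure_pos volume ⟨(x, (u + v) / 2), hx, by
    show (u + v) / 2 ∈ Ioo u v
    exact ⟨by linarith, by linarith⟩⟩
  have sub : Ω ∩ Prod.snd ⁻¹' Ioo u v ⊆ (Ω ∩ {p | u < p.2}) \ {p | v < p.2} := fun p hp =>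
    ⟨⟨hp.1, hp.2.1⟩, fun k : v < p.2 => absurd hp.2.2 k.not_gt⟩
  exact ENNReal.toReal_pos (lt_of_lt_of_le k (measure_mono sub)).ne'
    (ne_top_of_le_ne_top h.vol_fin (measure_mono fun p hp => hp.1.1))

theorem Dom.bound (h : Dom Ω) : ∃ M : ℝ, 0 < M ∧ ∀ p ∈ Ω, |p.1| < M ∧ |p.2| < M := by
  obtain ⟨M, hM⟩ := h.bd.exists_norm_le
  obtain ⟨q, hq⟩ := h.ne
  refine ⟨M + 1, by linarith [hM q hq, norm_nonneg q], fun p hp => ?_⟩
  have := hM p hp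
  exact ⟨by linarith [norm_fst_le p, Real.norm_eq_abs p.1],
    by linarith [norm_snd_le p, Real.norm_eq_abs p.2]⟩

theorem Dom.base_le (h : Dom Ω) (hρ : IsLen ρ) {u e : ℝ} (hu : u ∈ hts Ω) (he : e = 1 ∨ e = -1) :
    wd Ω u ≤ ρ.real (frontier Ω ∩ {p | 0 < e * (p.2 - u)}) := by
  obtain ⟨M, M0, hM⟩ := h.bound
  refine (ENNReal.ofReal_le_iff_le_toReal
    (ne_top_of_le_ne_top (h.len_fin hρ) (measure_mono inter_subset_left))).1 ?_
  refine le_trans ?_ (hρ.low _ 1 0 (by norm_num))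
  rw [wd, ← Real.volume_Ioo]
  refine measure_mono fun x hx => ?_
  have m := h.mem_of_lt hu hx.1 hx.2
  have n : (x, u + e * (2 * M)) ∉ Ω := fun k => by
    have k1 := abs_lt.1 (hM _ m).2
    have k2 := abs_lt.1 (hM _ k).2
    rcases he with rfl | rfl <;> simp only at k1 k2 <;> linarith [k1.1, k1.2, k2.1, k2.2]
  obtain ⟨l, l0, -, k⟩ := exit_frontier h.op m n
  refine ⟨_, ⟨k, ?_⟩, by simp⟩
  have := mul_pos l0 M0
  rcases he with rfl | rfl <;> simp <;> positivity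

theorem Dom.unif (h : Dom Ω) {p q ε : ℝ} (hp : p ∈ hts Ω) (hq : q ∈ hts Ω) (hε : 0 < ε) :
    ∃ η : ℝ, 0 < η ∧ ∀ u v, p ≤ u → v ≤ q → v - u < η → ∀ t ∈ Icc u v,
      |lo Ω t - lo Ω u| ≤ ε ∧ |hi Ω t - hi Ω u| ≤ ε := by
  have hJ := h.icc hp hq
  obtain ⟨a, a0, ha⟩ := Metric.uniformContinuousOn_iff.1
    (isCompact_Icc.uniformContinuousOn_of_continuous
      ((h.lo_cv.continuousOn h.hts_op).mono hJ)) ε hε
  obtain ⟨b, b0, hb⟩ := Metric.uniformContinuousOn_iff.1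
    (isCompact_Icc.uniformContinuousOn_of_continuous
      ((h.hi_cc.continuousOn h.hts_op).mono hJ)) ε hε
  refine ⟨min a b, lt_min a0 b0, fun u v h1 h2 h3 t ht => ?_⟩
  have m1 : t ∈ Icc p q := ⟨h1.trans ht.1, ht.2.trans h2⟩
  have m2 : u ∈ Icc p q := ⟨h1, (ht.1.trans ht.2).trans h2⟩
  have d : dist t u < min a b := by
    rw [Real.dist_eq, abs_of_nonneg (sub_nonneg.2 ht.1)]
    linarith [ht.2]
  exact ⟨(ha t m1 u m2 (d.trans_le (min_le_left _ _))).le,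
    (hb t m1 u m2 (d.trans_le (min_le_right _ _))).le⟩

theorem Dom.near_top (h : Dom Ω) {u ε : ℝ} (hu : u ∈ hts Ω) (hε : 0 < ε) :
    ∃ v ∈ hts Ω, u < v ∧ (∀ p ∈ Ω, p.2 ≤ v + ε) ∧ Ar Ω v ≤ ε := by
  obtain ⟨M, M0, hM⟩ := h.bound
  have bd : BddAbove (hts Ω) := ⟨M, fun t ⟨x, hx⟩ => (abs_lt.1 (hM _ hx).2).2.le⟩
  obtain ⟨l, r, h1, h2⟩ := mem_nhds_iff_exists_Ioo_subset.1 (h.hts_op.mem_nhds hu)
  have h3 : u < sSup (hts Ω) := lt_of_lt_of_le (by linarith [h1.2])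
    (le_csSup bd (h2 (show (u + r) / 2 ∈ Ioo l r from
      ⟨by linarith [h1.1, h1.2], by linarith [h1.2]⟩)))
  have e0 : 0 < min ε (ε / (2 * M)) := lt_min hε (by positivity)
  obtain ⟨v, hv, h4⟩ := exists_lt_of_lt_csSup ⟨u, hu⟩
    (max_lt h3 (sub_lt_self (sSup (hts Ω)) e0))
  have h5 : ∀ p ∈ Ω, p.2 ≤ v + min ε (ε / (2 * M)) := fun p hp => by
    linarith [le_csSup bd (show p.2 ∈ hts Ω from ⟨p.1, hp⟩), (max_lt_iff.1 h4).2]
  refine ⟨v, hv, (max_lt_iff.1 h4).1, fun p hp => (h5 p hp).trans (by simp), ?_⟩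
  refine (measureReal_mono (s₂ := Ioo (-M) M ×ˢ Ioc v (v + min ε (ε / (2 * M))))
    (fun p hp => ⟨abs_lt.1 (hM p hp.1).1, hp.2, h5 p hp.1⟩) (box_fin _ _ _ _)).trans ?_
  rw [vol_box _ _ _ _ (by linarith), max_eq_left (by linarith), add_sub_cancel_left]
  have := (le_div_iff₀ (by positivity)).1 (min_le_right ε (ε / (2 * M)))
  linarith

theorem Dom.near_bot (h : Dom Ω) {b ε : ℝ} (hb : IsGLB (hts Ω) b) (hε : 0 < ε) :
    ∃ u ∈ hts Ω, u ≤ b + ε ∧ volume.real Ω ≤ Ar Ω u + ε := by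
  obtain ⟨M, M0, hM⟩ := h.bound
  have e0 : 0 < min ε (ε / (2 * M)) := lt_min hε (by positivity)
  obtain ⟨u, hu, h1, h2⟩ := hb.exists_between (lt_add_of_pos_right b e0)
  refine ⟨u, hu, h2.le.trans (by simp), ?_⟩
  rw [← measureReal_inter_add_sdiff (μ := volume) (s := Ω) (mab u) h.vol_fin]
  refine add_le_add le_rfl ((measureReal_mono (s₂ := Ioo (-M) M ×ˢ Ioc b u)
    (fun p hp => ⟨abs_lt.1 (hM p hp.1).1, ?_, not_lt.1 hp.2⟩) (box_fin _ _ _ _)).trans ?_)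
  · obtain ⟨l, r, k1, k2⟩ := mem_nhds_iff_exists_Ioo_subset.1
      (h.hts_op.mem_nhds (show p.2 ∈ hts Ω from ⟨p.1, hp.1⟩))
    have := hb.1 (k2 (show (l + p.2) / 2 ∈ Ioo l r from
      ⟨by linarith [k1.1], by linarith [k1.1, k1.2]⟩))
    linarith [k1.1]
  · rw [vol_box _ _ _ _ h1, max_eq_left (by linarith)]
    have := (le_div_iff₀ (by positivity)).1 (min_le_right ε (ε / (2 * M)))
    nlinarith

theorem incr (μ : Measure (ℝ × ℝ)) [IsFiniteMeasure μ]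
    (hi : ∀ s : ℝ, Integrable (fun p : ℝ × ℝ => max (p.2 - s) 0) μ) {u v : ℝ} (huv : u ≤ v) :
    ∫ p, max (p.2 - v) 0 ∂μ + μ.real {p | v < p.2} * (v - u) ≤ ∫ p, max (p.2 - u) 0 ∂μ ∧
      ∫ p, max (p.2 - u) 0 ∂μ ≤ ∫ p, max (p.2 - v) 0 ∂μ + μ.real {p | u < p.2} * (v - u) := by
  have i : ∀ t : ℝ, Integrable ({p : ℝ × ℝ | t < p.2}.indicator fun _ => v - u) μ := fun t =>
    (integrable_const _).indicator (mab t)
  have e : ∀ t : ℝ, ∫ p, max (p.2 - v) 0 ∂μ + μ.real {p | t < p.2} * (v - u) =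
      ∫ p, (max (p.2 - v) 0 + {p : ℝ × ℝ | t < p.2}.indicator (fun _ => v - u) p) ∂μ :=
    fun t => by rw [integral_add (hi v) (i t), integral_indicator_const _ (mab t), smul_eq_mul]
  rw [e, e]
  refine ⟨integral_mono ((hi v).add (i v)) (hi u) fun p => ?_,
    integral_mono (hi u) ((hi v).add (i u)) fun p => ?_⟩
  · by_cases k : v < p.2
    · simp only [indicator_of_mem (show p ∈ {p : ℝ × ℝ | v < p.2} from k)]
      rw [max_eq_left (by linarith), max_eq_left (by linarith)]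
      linarith
    · simp only [indicator_of_notMem (show p ∉ {p : ℝ × ℝ | v < p.2} from k), add_zero]
      exact max_le_max (by linarith) le_rfl
  · by_cases k : u < p.2
    · simp only [indicator_of_mem (show p ∈ {p : ℝ × ℝ | u < p.2} from k)]
      exact max_le (by linarith [le_max_left (p.2 - v) 0]) (by linarith [le_max_right (p.2 - v) 0])
    · simp only [indicator_of_notMem (show p ∉ {p : ℝ × ℝ | u < p.2} from k), add_zero]
      exact max_le (by linarith [le_max_right (p.2 - v) 0]) (le_max_right _ _)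

end Pool.Agent.Pas
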