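import Pool.Agent.MP_a32717_an.Iso.Calc
import Pool.Agent.MP_a32717_an.Iso.Strip

/-! The comparison of a cap of a convex domain with the cap of the disc of the same area. -/

set_option autoImplicit false

namespace Pool.Agent.Pas

open MeasureTheory Set Real Pool.Agent.Iso

variable {Ω : Set (ℝ × ℝ)} {ρ : Measure (ℝ × ℝ)} {R : ℝ}

theorem Dom.angle (h : Dom Ω) (hR : 0 < R) (hA : R ^ 2 * π = volume.real Ω) :
    ∃ θ : ℝ → ℝ, ∀ u, 0 ≤ θ u ∧ θ u ≤ π ∧ R ^ 2 * sg (θ u) = Ar Ω u := by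
  have k : ∀ u, ∃ θ, 0 ≤ θ ∧ θ ≤ π ∧ R ^ 2 * sg θ = Ar Ω u := fun u => by
    have a0 : 0 ≤ Ar Ω u := measureReal_nonneg
    have a1 : Ar Ω u ≤ volume.real Ω := measureReal_mono inter_subset_left h.vol_fin
    obtain ⟨θ, h0, h1, e⟩ := sg_surj (x := Ar Ω u / R ^ 2) (by positivity)
      (by rw [div_le_iff₀ (by positivity)]; linarith)
    exact ⟨θ, h0, h1, by rw [e]; field_simp⟩
  choose θ hθ using k
  exact ⟨θ, hθ⟩

theorem Dom.angle_lt (h : Dom Ω) (hR : 0 < R) {θ : ℝ → ℝ}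
    (hθ : ∀ u, 0 ≤ θ u ∧ θ u ≤ π ∧ R ^ 2 * sg (θ u) = Ar Ω u) {u v : ℝ} (hu : u ∈ hts Ω)
    (hv : v ∈ hts Ω) (huv : u < v) : θ v < θ u := by
  have k := h.ar_lt hu hv huv
  rw [← (hθ u).2.2, ← (hθ v).2.2] at k
  by_contra n
  rcases (not_lt.1 n).eq_or_lt with e | e
  · rw [e] at k
    exact k.false
  · have := mul_lt_mul_of_pos_left (sg_lt (hθ u).1 e (hθ v).2.1) (by positivity : 0 < R ^ 2)
    linarith

theorem Dom.wd_pos (h : Dom Ω) {u : ℝ} (hu : u ∈ hts Ω) : 0 < wd Ω u :=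
  sub_pos.2 (h.lo_lt_hi hu)

theorem Dom.wd_le (h : Dom Ω) (hρ : IsLen ρ) {u : ℝ} (hu : u ∈ hts Ω) : wd Ω u ≤ Ln ρ Ω u := by
  simpa [Ln] using h.base_le hρ hu (Or.inl rfl)

theorem Dom.step1 (h : Dom Ω) (hρ : IsLen ρ) (hR : 0 < R) {θ : ℝ → ℝ}
    (hθ : ∀ u, 0 ≤ θ u ∧ θ u ≤ π ∧ R ^ 2 * sg (θ u) = Ar Ω u) {p : ℝ} (hp : p ∈ hts Ω) :
    2 / R * Ar Ω p + wd Ω p * cos (θ p) ≤ Ln ρ Ω p := by
  have κ0 : 0 < 2 / R := by positivity
  refine le_of_forall_pos_le_add fun ε hε => ?_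
  obtain ⟨q, hq, hpq, -, h1⟩ := h.near_top hp (div_pos hε κ0)
  have hJ := h.icc hp hq
  have k := chain (fun u => Ln ρ Ω u - 2 / R * Ar Ω u - wd Ω u * cos (θ u)) hpq fun e e0 => by
    obtain ⟨η, η0, hη⟩ := h.unif hp hq (ε := e / (2 / R) / 4) (by positivity)
    refine ⟨η, η0, fun u v k1 k2 k3 k4 => ?_⟩
    have hu := hJ ⟨k1, k2.le.trans k3⟩
    have hv := hJ ⟨k1.trans k2.le, k3⟩
    have b := hη u v k1 k3 k4
    obtain ⟨a1, a2⟩ := h.strip_area hu hv k2.le b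
    obtain ⟨ξ, s0, c1, c2, c3⟩ := mvt1 (hθ v).1 (h.angle_lt hR hθ hu hv k2) (hθ u).2.1
    have w1 := h.wd_pos hu
    have w2 := h.wd_pos hv
    have b1 := abs_le.1 (b v ⟨k2.le, le_rfl⟩).1
    have b2 := abs_le.1 (b v ⟨k2.le, le_rfl⟩).2
    have e1 : 0 < e / (2 / R) := by positivity
    have := step_alg (ε := e / (2 / R)) s0 hR (sub_nonneg.2 k2.le) c1.le c2.le (le_max_right _ _)
      (max_le (by linarith) w1.le) (max_le (by simp only [wd]; linarith [b1.2, b2.1]) w2.le) a1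
      (a2.trans (mul_le_mul_of_nonneg_right (max_le
        (by linarith [le_max_left (wd Ω u - 2 * (e / (2 / R) / 4)) 0])
        (by linarith [le_max_right (wd Ω u - 2 * (e / (2 / R) / 4)) 0])) (sub_nonneg.2 k2.le)))
      (by rw [← c3, ← (hθ u).2.2, ← (hθ v).2.2]; ring)
      (h.strip_len hρ hu hv k2.le (by linarith [sin_sq_add_cos_sq ξ]))
    rw [mul_div_cancel₀ _ κ0.ne'] at this
    linarith
  have t1 := mul_le_mul_of_nonneg_left h1 κ0.le
  rw [mul_div_cancel₀ _ κ0.ne'] at t1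
  have t2 := mul_le_mul_of_nonneg_left (cos_le_one (θ q)) (h.wd_pos hq).le
  linarith [h.wd_le hρ hq]

theorem Dom.incA (h : Dom Ω) {u v : ℝ} (huv : u ≤ v) :
    ∫ p in Ω, max (p.2 - u) 0 ≤ (∫ p in Ω, max (p.2 - v) 0) + Ar Ω u * (v - u) := by
  have : IsFiniteMeasure (volume.restrict Ω) := isFiniteMeasure_restrict.2 h.vol_fin
  have k := (incr (volume.restrict Ω) (fun s => h.intA (by fun_prop)) huv).2
  rwa [measureReal_restrict_apply (mab u), inter_comm] at k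

theorem Dom.incL (h : Dom Ω) (hρ : IsLen ρ) {u v : ℝ} (huv : u ≤ v) :
    ∫ p in frontier Ω, max (p.2 - v) 0 ∂ρ + Ln ρ Ω v * (v - u) ≤
      ∫ p in frontier Ω, max (p.2 - u) 0 ∂ρ := by
  have : IsFiniteMeasure (ρ.restrict (frontier Ω)) := isFiniteMeasure_restrict.2 (h.len_fin hρ)
  have k := (incr (ρ.restrict (frontier Ω)) (fun s => h.intL hρ (by fun_prop)) huv).1
  rwa [measureReal_restrict_apply (mab v), inter_comm] at k

theorem top0 {s : ℝ} (hs : ∀ p ∈ Ω, p.2 ≤ s) : ∫ p in Ω, max (p.2 - s) 0 = 0 :=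
  setIntegral_eq_zero_of_forall_eq_zero fun p hp => max_eq_right (sub_nonpos.2 (hs p hp))

theorem Dom.step2 (h : Dom Ω) (hρ : IsLen ρ) (hR : 0 < R) (hA : R ^ 2 * π = volume.real Ω)
    {p : ℝ} (hp : p ∈ hts Ω) :
    2 / R * ∫ x in Ω, max (x.2 - p) 0 ≤ ∫ x in frontier Ω, max (x.2 - p) 0 ∂ρ := by
  obtain ⟨θ, hθ⟩ := h.angle hR hA
  have κ0 : 0 < 2 / R := by positivity
  have L0 := h.L_pos hρ
  refine le_of_forall_pos_le_add fun ε hε => ?_
  have e0 : 0 < min 1 (ε / (2 / R + 1)) := lt_min one_pos (by positivity)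
  obtain ⟨q, hq, hpq, h0, h1⟩ := h.near_top hp e0
  have hJ := h.icc hp hq
  have k := chain (fun u => ∫ x in frontier Ω, max (x.2 - u) 0 ∂ρ -
      2 / R * (∫ x in Ω, max (x.2 - u) 0) - R ^ 2 * (2 / 3 * sin (θ u) ^ 3)) hpq fun e e0 => by
    obtain ⟨η, η0, hη⟩ := h.unif hp hq (ε := e / 8) (by positivity)
    refine ⟨min η (e / 2 / (2 / R * (ρ.real (frontier Ω) + e / 2))),
      lt_min η0 (by positivity), fun u v k1 k2 k3 k4 => ?_⟩
    have hu := hJ ⟨k1, k2.le.trans k3⟩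
    have hv := hJ ⟨k1.trans k2.le, k3⟩
    have b := hη u v k1 k3 (k4.trans_le (min_le_left _ _))
    have k5 := (lt_div_iff₀ (by positivity)).1 (k4.trans_le (min_le_right _ _))
    obtain ⟨a1, a2⟩ := h.strip_area hu hv k2.le b
    have δ0 := sub_nonneg.2 k2.le
    have w1 := h.wd_pos hu
    have w3 : wd Ω v ≤ ρ.real (frontier Ω) :=
      (h.wd_le hρ hv).trans (measureReal_mono inter_subset_left (h.len_fin hρ))
    have b1 := abs_le.1 (b v ⟨k2.le, le_rfl⟩).1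
    have b2 := abs_le.1 (b v ⟨k2.le, le_rfl⟩).2
    have a3 : (wd Ω v - e / 2) * (v - u) ≤ Ar Ω u - Ar Ω v :=
      (mul_le_mul_of_nonneg_right (le_max_of_le_left
        (by simp only [wd]; linarith [b1.1, b2.2])) δ0).trans a1
    have a4 : Ar Ω u - Ar Ω v ≤ (wd Ω v + e / 2) * (v - u) :=
      a2.trans (mul_le_mul_of_nonneg_right (max_le (by simp only [wd]; linarith [b1.2, b2.1])
        (by linarith [h.wd_pos hv])) δ0)
    have m := mul_le_mul_of_nonneg_left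
      (mvt2 (hθ v).1 (h.angle_lt hR hθ hu hv k2) (hθ u).2.1) (by positivity : 0 ≤ R ^ 2)
    have m2 : R ^ 2 * (cos (θ v) * (sg (θ u) - sg (θ v))) = cos (θ v) * (Ar Ω u - Ar Ω v) := by
      rw [← (hθ u).2.2, ← (hθ v).2.2]
      ring
    have i1 := h.incL hρ k2.le
    have i2 := mul_le_mul_of_nonneg_left (h.incA k2.le) κ0.le
    have i3 := mul_le_mul_of_nonneg_right (h.step1 hρ hR hθ hv) δ0
    have i4 : cos (θ v) * (Ar Ω u - Ar Ω v - wd Ω v * (v - u)) ≤ e / 2 * (v - u) := by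
      refine (le_abs_self _).trans ?_
      rw [abs_mul]
      exact (mul_le_of_le_one_left (abs_nonneg _) (abs_cos_le_one _)).trans
        (abs_le.2 ⟨by linarith, by linarith⟩)
    have i5 : 2 / R * (Ar Ω u - Ar Ω v) ≤ e / 2 :=
      (mul_le_mul_of_nonneg_left (a4.trans (mul_le_mul_of_nonneg_right
        (add_le_add w3 le_rfl) δ0)) κ0.le).trans (by linarith)
    have i6 := mul_le_mul_of_nonneg_right i5 δ0
    linarith
  have t1 := h.incA (u := q) (v := q + min 1 (ε / (2 / R + 1))) (by linarith)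
  rw [top0 h0, zero_add, add_sub_cancel_left] at t1
  have a0 : 0 ≤ Ar Ω q := measureReal_nonneg
  have t2 := mul_le_mul_of_nonneg_left
    (t1.trans (mul_le_of_le_one_right a0 (min_le_left _ _))) κ0.le
  have t3 := mul_le_mul_of_nonneg_left (cube_le (hθ q).1 (hθ q).2.1) (by positivity : 0 ≤ R ^ 2)
  rw [(hθ q).2.2] at t3
  have t4 := (le_div_iff₀ (by positivity)).1 (h1.trans (min_le_right _ _))
  have t5 : 0 ≤ ∫ x in frontier Ω, max (x.2 - q) 0 ∂ρ := integral_nonneg fun _ => le_max_right _ _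
  have t6 : 0 ≤ R ^ 2 * (2 / 3 * sin (θ p) ^ 3) := by
    have := sin_nonneg_of_nonneg_of_le_pi (hθ p).1 (hθ p).2.1
    positivity
  linarith

/-- The isoperimetric inequality. -/
theorem Dom.isop (h : Dom Ω) (hρ : IsLen ρ) (hR : 0 < R) (hA : R ^ 2 * π = volume.real Ω) :
    2 / R * volume.real Ω ≤ ρ.real (frontier Ω) := by
  obtain ⟨θ, hθ⟩ := h.angle hR hA
  obtain ⟨M, M0, hM⟩ := h.bound
  have κ0 : 0 < 2 / R := by positivity
  have hb := isGLB_csInf (s := hts Ω) ⟨_, _, h.ne.choose_spec⟩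
    ⟨-M, fun t ⟨x, hx⟩ => (abs_lt.1 (hM _ hx).2).1.le⟩
  refine le_of_forall_pos_le_add fun ε hε => ?_
  obtain ⟨u, hu, -, h1⟩ := h.near_bot hb (div_pos hε κ0)
  have t1 := mul_le_mul_of_nonneg_left h1 κ0.le
  rw [mul_add, mul_div_cancel₀ _ κ0.ne'] at t1
  have t2 := measureReal_inter_add_sdiff (μ := ρ) (s := frontier Ω) (mab u) (h.len_fin hρ)
  have t3 : wd Ω u ≤ ρ.real (frontier Ω \ {p | u < p.2}) :=
    (h.base_le hρ hu (Or.inr rfl)).trans (measureReal_mono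
      (fun p hp => ⟨hp.1, fun k : u < p.2 => by linarith [hp.2.out]⟩)
      (ne_top_of_le_ne_top (h.len_fin hρ) (measure_mono sdiff_subset)))
  have t4 := h.step1 hρ hR hθ hu
  have t5 := mul_le_mul_of_nonneg_left (neg_one_le_cos (θ u)) (h.wd_pos hu).le
  simp only [Ln] at t4
  linarith

theorem Dom.vert (h : Dom Ω) (hρ : IsLen ρ) (hR : 0 < R) (hA : R ^ 2 * π = volume.real Ω)
    (s : ℝ) : 2 / R * ∫ x in Ω, max (x.2 - s) 0 ≤ ∫ x in frontier Ω, max (x.2 - s) 0 ∂ρ := by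
  by_cases hs : s ∈ hts Ω
  · exact h.step2 hρ hR hA hs
  by_cases up : ∀ p ∈ Ω, p.2 ≤ s
  · rw [top0 up, mul_zero]
    exact integral_nonneg fun _ => le_max_right _ _
  push Not at up
  obtain ⟨z, hz, zs⟩ := up
  have lb : s ∈ lowerBounds (hts Ω) := fun t ht => not_lt.1 fun k =>
    hs (h.icc ht ⟨z.1, hz⟩ ⟨k.le, zs.le⟩)
  have hb := isGLB_csInf (s := hts Ω) ⟨_, _, hz⟩ ⟨s, lb⟩
  have sb := hb.2 lb
  have κ0 : 0 < 2 / R := by positivity
  have A0 := h.A_pos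
  refine le_of_forall_pos_le_add fun ε hε => ?_
  obtain ⟨u, hu, h1, -⟩ := h.near_bot hb (div_pos hε (mul_pos κ0 A0))
  have bu := hb.1 hu
  have t1 := h.step2 hρ hR hA hu
  have t2 := (h.incA (sb.trans bu)).trans (add_le_add le_rfl (mul_le_mul_of_nonneg_right
    (measureReal_mono inter_subset_left h.vol_fin) (sub_nonneg.2 (sb.trans bu))))
  have t3 : ∫ x in frontier Ω, (max (x.2 - u) 0 + (sInf (hts Ω) - s)) ∂ρ ≤
      ∫ x in frontier Ω, max (x.2 - s) 0 ∂ρ := by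
    refine setIntegral_mono_on (h.intL hρ (by fun_prop)) (h.intL hρ (by fun_prop))
      isClosed_frontier.measurableSet fun p hp => le_max_of_le_left ?_
    have : sInf (hts Ω) ≤ p.2 := closure_minimal (t := {p : ℝ × ℝ | sInf (hts Ω) ≤ p.2})
      (fun p hp => hb.1 ⟨p.1, hp⟩) (isClosed_le continuous_const continuous_snd)
      (frontier_subset_closure hp)
    have : max (p.2 - u) 0 ≤ p.2 - sInf (hts Ω) := max_le (by linarith) (by linarith)
    linarith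
  rw [integral_add (h.intL hρ (by fun_prop)) (h.intL hρ (by fun_prop)), setIntegral_const,
    smul_eq_mul] at t3
  have t4 := mul_le_mul_of_nonneg_right (h.isop hρ hR hA) (sub_nonneg.2 sb)
  have t5 := mul_le_mul_of_nonneg_left h1 (mul_pos κ0 A0).le
  rw [mul_add, mul_div_cancel₀ _ (mul_pos κ0 A0).ne'] at t5
  linarith [mul_le_mul_of_nonneg_left t2 κ0.le]

theorem Dom.dir (h : Dom Ω) (hρ : IsLen ρ) (hR : 0 < R) (hA : R ^ 2 * π = volume.real Ω)
    {c d : ℝ} (u : c ^ 2 + d ^ 2 = 1) (s : ℝ) :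
    2 / R * ∫ x in Ω, max (c * x.1 + d * x.2 - s) 0 ≤
      ∫ x in frontier Ω, max (c * x.1 + d * x.2 - s) 0 ∂ρ := by
  have k := (h.rf u).vert (hρ.rf u) hR (by rw [hA, Measure.real, Measure.real, vol_rf u]) s
  have em : MeasurableEmbedding (Pas.rf c d) := (rfH u).toMeasurableEquiv.measurableEmbedding
  have m1 : MeasurePreserving (Pas.rf c d) volume volume :=
    ⟨em.measurable, Measure.ext fun S _ => by rw [map_rf u, vol_rf u]⟩
  have m2 : MeasurePreserving (Pas.rf c d) ρ (ρ.map (Pas.rf c d)) := ⟨em.measurable, rfl⟩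
  rwa [← m1.setIntegral_preimage_emb em, ← m2.setIntegral_preimage_emb em, frontier_rf u,
    pre_pre u, pre_pre u] at k

theorem Dom.capI (h : Dom Ω) (hρ : IsLen ρ) (hR : 0 < R) (hA : R ^ 2 * π = volume.real Ω)
    (c d e : ℝ) : 2 / R * ∫ x in Ω, max (c * x.1 + d * x.2 + e) 0 ≤
      ∫ x in frontier Ω, max (c * x.1 + d * x.2 + e) 0 ∂ρ := by
  have r0 : 0 ≤ c ^ 2 + d ^ 2 := by positivity
  rcases r0.eq_or_lt with z | z
  · have c0 : c = 0 := by nlinarith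
    have d0 : d = 0 := by nlinarith
    have := mul_le_mul_of_nonneg_right (h.isop hρ hR hA) (le_max_right e 0)
    simp only [c0, d0, zero_mul, zero_add, setIntegral_const, smul_eq_mul]
    linarith
  · obtain ⟨r, r1, r2⟩ : ∃ r : ℝ, 0 < r ∧ r ^ 2 = c ^ 2 + d ^ 2 :=
      ⟨_, Real.sqrt_pos.2 z, Real.sq_sqrt r0⟩
    have := mul_le_mul_of_nonneg_left
      (h.dir hρ hR hA (c := c / r) (d := d / r) (by field_simp; linarith) (-e / r)) r1.le
    have e1 : (fun p : ℝ × ℝ => max (c * p.1 + d * p.2 + e) 0) =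
        fun p => r * max (c / r * p.1 + d / r * p.2 - -e / r) 0 := by
      funext p
      rw [mul_max_of_nonneg _ _ r1.le, mul_zero]
      congr 1
      field_simp
      ring
    rw [e1, integral_const_mul, integral_const_mul]
    linarith

end Pool.Agent.Pas
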