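import Pool.Agent.MP_a32717_an.Iso.Cap
import Pool.Agent.MP_a32717_an.PasPlane

/-! The scale invariant inequality for nonnegative convex functions in the plane. -/

set_option autoImplicit false

namespace Pool.Agent.Pas

open MeasureTheory Set Real Pool.Agent.Iso
open scoped MeasureTheory

variable {Ω : Set (ℝ × ℝ)} {ρ : Measure (ℝ × ℝ)} {R : ℝ}

/-- A sum of positive parts of affine functions. -/
noncomputable def caps (l : List (ℝ × ℝ × ℝ)) (p : ℝ × ℝ) : ℝ :=
  (l.map fun B => max (ev B p) 0).sum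

theorem caps_cons (B : ℝ × ℝ × ℝ) (l : List (ℝ × ℝ × ℝ)) (p : ℝ × ℝ) :
    caps (B :: l) p = max (ev B p) 0 + caps l p := by simp [caps]

theorem caps_app (l l' : List (ℝ × ℝ × ℝ)) (p : ℝ × ℝ) :
    caps (l ++ l') p = caps l p + caps l' p := by simp [caps]

theorem ev_combo (A : ℝ × ℝ × ℝ) (x y : ℝ × ℝ) (a b : ℝ) (hab : a + b = 1) :
    ev A (a • x + b • y) = a * ev A x + b * ev A y := by
  simp only [ev, Prod.fst_add, Prod.snd_add, Prod.smul_fst, Prod.smul_snd, smul_eq_mul]
  linear_combination (-A.2.2) * hab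

theorem ev_cv (A : ℝ × ℝ × ℝ) {K : Set (ℝ × ℝ)} (hK : Convex ℝ K) : ConvexOn ℝ K (ev A) :=
  ⟨hK, fun x _ y _ a b _ _ hab => (ev_combo A x y a b hab).le⟩

theorem caps_cv (l : List (ℝ × ℝ × ℝ)) {K : Set (ℝ × ℝ)} (hK : Convex ℝ K) :
    ConvexOn ℝ K (caps l) := by
  induction l with
  | nil => exact convexOn_const 0 hK
  | cons B l ih =>
    rw [funext (caps_cons B l)]
    exact ((ev_cv B hK).sup (convexOn_const 0 hK)).add ih

theorem caps_cont (l : List (ℝ × ℝ × ℝ)) : Continuous (caps l) := by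
  induction l with
  | nil => exact continuous_const
  | cons B l ih =>
    rw [funext (caps_cons B l)]
    exact ((ev_cont B).max continuous_const).add ih

theorem Dom.rep (h : Dom Ω) (hρ : IsLen ρ) (hR : 0 < R) (hA : R ^ 2 * π = volume.real Ω)
    (l : List (ℝ × ℝ × ℝ)) : ∀ A : ℝ × ℝ × ℝ, (∀ p ∈ closure Ω, 0 ≤ ev A p + caps l p) →
      2 / R * ∫ p in Ω, (ev A p + caps l p) ≤ ∫ p in frontier Ω, (ev A p + caps l p) ∂ρ := by
  have cap : ∀ B : ℝ × ℝ × ℝ, 2 / R * ∫ p in Ω, max (ev B p) 0 ≤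
      ∫ p in frontier Ω, max (ev B p) 0 ∂ρ := fun B => h.capI hρ hR hA _ _ _
  induction l with
  | nil =>
    intro A h0
    have e : ∀ p ∈ closure Ω, ev A p + caps [] p = max (ev A p) 0 := fun p hp => by
      have := h0 p hp
      simp only [caps, List.map_nil, List.sum_nil, add_zero] at this ⊢
      exact (max_eq_left this).symm
    rw [setIntegral_congr_fun h.op.measurableSet fun p hp => e p (subset_closure hp),
      setIntegral_congr_fun isClosed_frontier.measurableSet
        fun p hp => e p (frontier_subset_closure hp)]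
    exact cap A
  | cons B l ih =>
    intro A h0
    obtain ⟨θ, θ0, θ1, hθ⟩ := minimax (K := closure Ω) (Φ := fun p => ev A p + caps l p)
      (l := ev B) ((ev_cv A h.cv.closure).add (caps_cv l h.cv.closure)) (ev_combo B)
      fun p hp => by linarith [h0 p hp, caps_cons B l p]
    have k := ih (A + θ • B) fun p hp => by linarith [hθ p hp, ev_add_smul A B θ p]
    have e : (fun p => ev A p + caps (B :: l) p) = fun p => (ev (A + θ • B) p + caps l p) +
        ((1 - θ) * max (ev B p) 0 + θ * max (ev ((-1 : ℝ) • B) p) 0) := by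
      funext p
      rw [caps_cons, ev_add_smul, ev_smul]
      rcases le_total (ev B p) 0 with b | b
      · rw [max_eq_right b, max_eq_left (by linarith)]
        ring
      · rw [max_eq_left b, max_eq_right (by linarith)]
        ring
    have c1 : ContinuousOn (fun p => ev (A + θ • B) p + caps l p) (closure Ω) :=
      ((ev_cont (A + θ • B)).add (caps_cont l)).continuousOn
    have c2 := (((ev_cont B).max continuous_const).const_mul (1 - θ)).continuousOn
      (s := closure Ω) (f := fun p => (1 - θ) * max (ev B p) 0)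
    have c3 := (((ev_cont ((-1 : ℝ) • B)).max continuous_const).const_mul θ).continuousOn
      (s := closure Ω) (f := fun p => θ * max (ev ((-1 : ℝ) • B) p) 0)
    have c4 : ContinuousOn (fun p => (1 - θ) * max (ev B p) 0 +
        θ * max (ev ((-1 : ℝ) • B) p) 0) (closure Ω) := c2.add c3
    rw [e, integral_add (h.intA c1) (h.intA c4), integral_add (h.intA c2) (h.intA c3),
      integral_add (h.intL hρ c1) (h.intL hρ c4),
      integral_add (h.intL hρ c2) (h.intL hρ c3)]
    simp only [integral_const_mul]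
    linarith [mul_le_mul_of_nonneg_left (cap B) (sub_nonneg.2 θ1),
      mul_le_mul_of_nonneg_left (cap ((-1 : ℝ) • B)) θ0]

theorem Dom.planeI (h : Dom Ω) (hρ : IsLen ρ) (hR : 0 < R) (hA : R ^ 2 * π = volume.real Ω)
    {f : ℝ × ℝ → ℝ} (hf : ContinuousOn f (closure Ω)) (f0 : ∀ p ∈ closure Ω, 0 ≤ f p)
    (hv : ConvexOn ℝ Ω f) : 2 / R * ∫ p in Ω, f p ≤ ∫ p in frontier Ω, f p ∂ρ := by
  refine le_of_forall_pos_le_add fun ε hε => ?_
  have L0 := h.L_pos hρ
  obtain ⟨S, g, hg, h1⟩ := h.approx hf hv (div_pos hε L0)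
  obtain ⟨F, ⟨A, l, rfl⟩, h2, h3⟩ := h.env
    (G := fun F => ∃ A l, F = fun p => ev A p + caps l p) hg
    (fun A => ⟨0, [A], funext fun p => by simp [caps, ev]⟩)
    (by
      rintro _ _ ⟨A, l, rfl⟩ ⟨A', l', rfl⟩
      refine ⟨A + (1 : ℝ) • A', l ++ l', funext fun p => ?_⟩
      rw [ev_add_smul, caps_app]
      ring)
    (fun A => ⟨A, [], funext fun p => by simp [caps]⟩)
  have e : ∀ p, ev (A + (ε / ρ.real (frontier Ω)) • ((0 : ℝ), (0 : ℝ), (1 : ℝ))) p =
      ev A p + ε / ρ.real (frontier Ω) := fun p => by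
    rw [ev_add_smul]
    simp [ev]
  have k := h.rep hρ hR hA l (A + (ε / ρ.real (frontier Ω)) • ((0 : ℝ), (0 : ℝ), (1 : ℝ)))
    fun p hp => by linarith [e p, f0 p hp, (h1 p hp).2, h2 p hp]
  have c : ContinuousOn (fun p => ev (A + (ε / ρ.real (frontier Ω)) • ((0 : ℝ), (0 : ℝ), (1 : ℝ))) p
      + caps l p) (closure Ω) := ((ev_cont _).add (caps_cont l)).continuousOn
  have k1 := setIntegral_mono_on (h.intA hf) (h.intA c) h.op.measurableSet fun p hp => by
    have hp' := subset_closure hp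
    linarith [e p, (h1 p hp').2, h2 p hp']
  have k2 := setIntegral_mono_on (h.intL hρ c)
    (h.intL hρ (hf.add (continuousOn_const (c := ε / ρ.real (frontier Ω)))))
    isClosed_frontier.measurableSet fun p hp => by
      show _ ≤ f p + _
      linarith [e p, (h1 p (frontier_subset_closure hp)).1, h3 p hp]
  have k3 := integral_add (h.intL hρ hf)
    (h.intL hρ (continuousOn_const (c := ε / ρ.real (frontier Ω))))
  rw [setIntegral_const, smul_eq_mul, mul_div_cancel₀ _ L0.ne'] at k3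
  exact (mul_le_mul_of_nonneg_left k1 (by positivity)).trans (k.trans (k2.trans k3.le))

theorem planeI (Ω : Set (EuclideanSpace ℝ (Fin 2))) (ho : IsOpen Ω) (hc : Convex ℝ Ω)
    (hb : Bornology.IsBounded Ω) (hn : Ω.Nonempty) (f : EuclideanSpace ℝ (Fin 2) → ℝ)
    (hf : ContinuousOn f (closure Ω)) (f0 : ∀ x ∈ closure Ω, 0 ≤ f x) (hv : ConvexOn ℝ Ω f) :
    ∫ x in Ω, f x ≤ 1 / (2 * √π) * √(volume.real Ω) * ∫ x in frontier Ω, f x ∂μH[1] := by
  set ρ := (μH[1] : Measure (EuclideanSpace ℝ (Fin 2))).map ioM with hρ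
  have m1 : MeasurePreserving ioM.symm volume volume := io_vol.symm ioM
  have m2 : MeasurePreserving ioM.symm ρ μH[1] := (ioM.measurable.measurePreserving _).symm ioM
  have h : Dom (ioM.symm ⁻¹' Ω) :=
    ⟨ho.preimage io.symm.continuous, hc.linear_preimage (io.symm : (ℝ × ℝ) →ₗ[ℝ] _),
      io.symm.antilipschitz.isBounded_preimage hb, hn.preimage io.symm.surjective⟩
  have fr : frontier (ioM.symm ⁻¹' Ω) = ioM.symm ⁻¹' frontier Ω :=
    (io.symm.toHomeomorph.preimage_frontier Ω).symm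
  have cl : closure (ioM.symm ⁻¹' Ω) = ioM.symm ⁻¹' closure Ω :=
    (io.symm.toHomeomorph.preimage_closure Ω).symm
  have rA : volume.real (ioM.symm ⁻¹' Ω) = volume.real Ω :=
    congrArg ENNReal.toReal (m1.measure_preimage_equiv Ω)
  have A0 := h.A_pos
  rw [rA] at A0
  have s1 : 0 < √π := sqrt_pos.2 pi_pos
  have s2 : 0 < √(volume.real Ω) := sqrt_pos.2 A0
  have k := h.planeI isLen (R := √(volume.real Ω) / √π) (div_pos s2 s1)
    (by rw [rA, div_pow, sq_sqrt A0.le, sq_sqrt pi_pos.le, div_mul_cancel₀ _ pi_pos.ne'])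
    (f := fun p => f (ioM.symm p))
    (by rw [cl]; exact hf.comp io.symm.continuous.continuousOn fun p hp => hp)
    (by rw [cl]; exact fun p hp => f0 _ hp) (hv.comp_linearMap (io.symm : (ℝ × ℝ) →ₗ[ℝ] _))
  rw [← hρ, fr, m1.setIntegral_preimage_emb ioM.symm.measurableEmbedding f,
    m2.setIntegral_preimage_emb ioM.symm.measurableEmbedding f] at k
  have := mul_le_mul_of_nonneg_left k (by positivity : 0 ≤ 1 / (2 * √π) * √(volume.real Ω))
  refine le_trans (le_of_eq ?_) this
  field_simp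

theorem circle_le :
    (μH[1] : Measure (EuclideanSpace ℝ (Fin 2))) (Metric.sphere 0 1) ≤ ENNReal.ofReal (2 * π) := by
  have l : LipschitzWith 1 fun t : ℝ => io.symm (cos t, sin t) :=
    LipschitzWith.mk_one fun s t => by
      rw [EuclideanSpace.dist_eq, Fin.sum_univ_two, io_symm0, io_symm0, io_symm1, io_symm1,
        Real.dist_eq, Real.dist_eq, Real.dist_eq, sq_abs, sq_abs, ← sqrt_sq_eq_abs]
      refine sqrt_le_sqrt ?_
      have := one_sub_sq_div_two_le_cos (x := s - t)
      rw [cos_sub] at this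
      nlinarith [sin_sq_add_cos_sq s, sin_sq_add_cos_sq t]
  have k := l.hausdorffMeasure_image_le zero_le_one (Ioc (-π) π)
  rw [hausdorffMeasure_real, ENNReal.coe_one, ENNReal.one_rpow, one_mul, Real.volume_Ioc,
    show π - -π = 2 * π by ring] at k
  refine le_trans (measure_mono fun z hz => ?_) k
  have n : ‖(⟨z 0, z 1⟩ : ℂ)‖ = 1 := by
    rw [mem_sphere_zero_iff_norm, EuclideanSpace.norm_eq, Fin.sum_univ_two, norm_eq_abs,
      norm_eq_abs, sq_abs, sq_abs] at hz
    rw [Complex.norm_eq_sqrt_sq_add_sq]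
    exact hz
  have z0 : (⟨z 0, z 1⟩ : ℂ) ≠ 0 := fun e => by simp [e] at n
  refine ⟨Complex.arg ⟨z 0, z 1⟩, Complex.arg_mem_Ioc _, ?_⟩
  simp only [Complex.cos_arg z0, Complex.sin_arg, n, div_one]
  exact io.symm_apply_apply z

end Pool.Agent.Pas
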